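import Pool.Agent.Q217.CR.Main

set_option autoImplicit false

/-!
# Convex combinations of Kolmogorov random measures are Kolmogorov random

Idea. We construct a sequence of events `E_0, E_1, ...` such that a measure `μ` is Kolmogorov
random if and only if `∑ k, μ (E_k)` is finite; the latter property is clearly preserved by convex
combinations. To define the events we compute weights `w_n` of the lengths with a finite sum
(a decision to halve the weight is made at a stage `n` at which certain sets of strings of length
`n`, defined by the current approximations of the complexities, are small). `E_k` is the set of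
the sequences `X` for which some weighted average of `2 ^ ((j - C(X↾j)) / 2)`, `m ≤ j < N`, is
larger than `4 ^ k`. A Lindley type recursion (one-sided maximal inequality) shows that the
computed weights have a finite sum. Sequences in `E_k` have `C(X↾n) ≤ n - k / 2 + O(1)` for all
large `n`, since `X↾t` is a member of a small computable set for the last good stage `t ≤ n`. So
Kolmogorov random measures have finite `∑ μ (E_k)` by Fatou's lemma. Conversely, if this sum is
finite then the weighted averages of `∫ (j - C(X↾j)) dμ` are bounded.
-/

namespace Pool.Agent.Results.MP_8ca5b0_lc.ConvexKolmogorovRandom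

open MeasureTheory Q217.KT

/-- The measure `μ` is Kolmogorov random (for the plain complexity defined by `V`): there is a
constant `d` such that the average of the complexity over the strings of length `n` is at least
`n - d` for infinitely many `n`. -/
def KolmogorovRandom (V : List Bool →. List Bool) (μ : Measure (ℕ → Bool)) : Prop :=
  ∃ d : ℝ, {n : ℕ | (n : ℝ) - d ≤ avg V μ n}.Infinite

theorem kolmogorovRandom_iff {V : List Bool →. List Bool} {μ : Measure (ℕ → Bool)} :
    KolmogorovRandom V μ ↔ ∃ c : ℝ, ∃ᶠ n : ℕ in Filter.atTop, (n : ℝ) - c ≤ avg V μ n := by
  unfold KolmogorovRandom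
  refine exists_congr fun d => ?_
  rw [Nat.frequently_atTop_iff_infinite]

/-- For every optimal plain machine `V` (defining `C`), all Kolmogorov random Borel probability
measures `μ`, `ν` on Cantor space and all real `t` in `[0, 1]`, the measure `t μ + (1 - t) ν` is
a Kolmogorov random probability measure. -/
theorem result (V : List Bool →. List Bool) (hV : OptimalPlain V) (μ ν : Measure (ℕ → Bool))
    (pμ : IsProbabilityMeasure μ) (pν : IsProbabilityMeasure ν)
    (hμ : KolmogorovRandom V μ) (hν : KolmogorovRandom V ν) (t : ℝ) (ht0 : 0 ≤ t)
    (ht1 : t ≤ 1) :
    IsProbabilityMeasure (ENNReal.ofReal t • μ + ENNReal.ofReal (1 - t) • ν) ∧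
      KolmogorovRandom V (ENNReal.ofReal t • μ + ENNReal.ofReal (1 - t) • ν) := by
  have h1 : ENNReal.ofReal t + ENNReal.ofReal (1 - t) = 1 := by
    rw [← ENNReal.ofReal_add ht0 (by linarith)]
    rw [add_sub_cancel, ENNReal.ofReal_one]
  have hp : IsProbabilityMeasure (ENNReal.ofReal t • μ + ENNReal.ofReal (1 - t) • ν) := by
    refine ⟨?_⟩
    rw [Measure.add_apply, Measure.smul_apply, Measure.smul_apply, measure_univ, measure_univ,
      smul_eq_mul, smul_eq_mul, mul_one, mul_one, h1]
  refine ⟨hp, ?_⟩
  rw [kolmogorovRandom_iff] at hμ hν ⊢
  exact Q217.CR.convex hV μ ν hμ hν _ _ h1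

end Pool.Agent.Results.MP_8ca5b0_lc.ConvexKolmogorovRandom
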